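import Pool.Agent.T9h44.NK.SpecA

/-!
# Project NK (MP_727bc7_co): a polytope is in the cone of the edges at a vertex
-/

set_option autoImplicit false

open Set
open scoped RealInnerProductSpace

namespace Pool.Agent.T9h70.NK

open Pool.Agent.T9h98.DC Pool.Agent.T9h44.NK

/-- the cone of the edges at `v` -/
def CC {d : ℕ} (P : Set (E d)) (v u : E d) : Prop :=
  ∃ (S : Finset (E d)) (c : E d → ℝ), (∀ y ∈ S, Adj P v y ∧ 0 ≤ c y) ∧
    u = ∑ y ∈ S, c y • (y - v)

theorem CC.add {d : ℕ} {P : Set (E d)} {v u u' : E d} (h : CC P v u) (h' : CC P v u') :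
    CC P v (u + u') := by
  classical
  obtain ⟨S, c, h1, rfl⟩ := h
  obtain ⟨S', c', h1', rfl⟩ := h'
  refine ⟨S ∪ S', fun y => (if y ∈ S then c y else 0) + (if y ∈ S' then c' y else 0), ?_, ?_⟩
  · intro y hy
    refine ⟨?_, ?_⟩
    · rcases Finset.mem_union.1 hy with hy | hy
      · exact (h1 y hy).1
      · exact (h1' y hy).1
    · refine add_nonneg ?_ ?_
      · by_cases hS : y ∈ S
        · rw [if_pos hS]; exact (h1 y hS).2
        · rw [if_neg hS]
      · by_cases hS : y ∈ S'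
        · rw [if_pos hS]; exact (h1' y hS).2
        · rw [if_neg hS]
  · simp only [add_smul, Finset.sum_add_distrib, ite_smul, zero_smul]
    rw [Finset.sum_ite_mem, Finset.sum_ite_mem]
    congr 1
    · congr 1
      ext y; simp
    · congr 1
      ext y; simp

theorem CC.smul {d : ℕ} {P : Set (E d)} {v u : E d} (h : CC P v u) {t : ℝ} (ht : 0 ≤ t) :
    CC P v (t • u) := by
  obtain ⟨S, c, h1, rfl⟩ := h
  refine ⟨S, fun y => t * c y, fun y hy => ⟨(h1 y hy).1, mul_nonneg ht (h1 y hy).2⟩, ?_⟩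
  rw [Finset.smul_sum]
  exact Finset.sum_congr rfl fun y _ => smul_smul _ _ _

theorem CC.edge {d : ℕ} {P : Set (E d)} {v y : E d} (h : Adj P v y) : CC P v (y - v) :=
  ⟨{y}, fun _ => 1, fun z hz => by
    rw [Finset.mem_singleton] at hz
    subst hz
    exact ⟨h, zero_le_one⟩, by simp⟩

theorem CC.zero {d : ℕ} {P : Set (E d)} {v : E d} : CC P v 0 :=
  ⟨∅, fun _ => 0, fun z hz => absurd hz (Finset.notMem_empty z), by simp⟩

theorem cone (hF : S_FACES) (hVF : S_VF) (hINV : S_INV) (hIOTA : S_IOTA) (hNB : S_NB) :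
    S_CONE := by
  intro d P v hP hv x hx
  change CC P v (x - v)
  by_cases hxv : x = v
  · rw [hxv, sub_self]; exact CC.zero
  obtain ⟨n, hn0, hSup, -⟩ := hINV (d + 1) P v ⊥ hP.1 hv ⟨x, hx, hxv⟩ (by
    intro h hh
    rw [Subgroup.mem_bot] at hh
    subst hh
    change (fun y => y) '' P = P
    simp)
  obtain ⟨ι, hO, hsurj⟩ := hIOTA d n hn0
  have hfig := (hVF d P v n ι hP hv hSup hn0 hO).1
  obtain ⟨hF1, -, -, -, hF5, -⟩ := hF d (fig v n ι P) hfig.1
  obtain ⟨-, hNB2, -⟩ := hNB d P v n ι hP hv hSup hn0 hO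
  -- the point of the figure
  have hnn : 0 < ‖n‖ ^ 2 := by positivity
  have hpos : 0 < ⟪x - v, n⟫ := hSup x hx hxv
  set t : ℝ := ⟪x - v, n⟫ / ‖n‖ ^ 2 with ht
  have ht0 : 0 < t := div_pos hpos hnn
  obtain ⟨x', hx'⟩ := hsurj (t⁻¹ • (x - v) - n) (by
    rw [inner_sub_right, inner_smul_right, real_inner_self_eq_norm_sq, ht, real_inner_comm n (x - v),
      inv_div, div_mul_cancel₀ _ (by rw [real_inner_comm]; exact hpos.ne')]
    exact sub_self _)
  have hxt : x - v = t • (n + ι x') := by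
    rw [hx', add_sub_cancel, smul_smul, mul_inv_cancel₀ ht0.ne', one_smul]
  have hx'mem : x' ∈ fig v n ι P := ⟨t, ht0, by rw [← hxt, add_sub_cancel]; exact hx⟩
  have hne : (fig v n ι P).Nonempty := ⟨x', hx'mem⟩
  have hself := (hF5 hne).1
  have hhull := (hF1 _ hself).2
  -- the set of the points in the cone is convex
  have hconv : Convex ℝ {z : E d | CC P v (n + ι z)} := by
    intro a ha b hb α β hα hβ hαβ
    change CC P v (n + ι (α • a + β • b))
    have : n + ι (α • a + β • b) = α • (n + ι a) + β • (n + ι b) := by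
      rw [map_add, map_smul, map_smul, smul_add, smul_add]
      have : n = α • n + β • n := by rw [← add_smul, hαβ, one_smul]
      nth_rewrite 1 [this]
      abel
    rw [this]
    exact (CC.smul ha hα).add (CC.smul hb hβ)
  have hsub : {z | Vx (fig v n ι P) z ∧ z ∈ fig v n ι P} ⊆ {z : E d | CC P v (n + ι z)} := by
    rintro z ⟨hz, -⟩
    obtain ⟨y, hy, s, hs, hys⟩ := hNB2 z hz
    have : n + ι z = s⁻¹ • (y - v) := by
      rw [hys, smul_smul, inv_mul_cancel₀ hs.ne', one_smul]
    change CC P v (n + ι z)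
    rw [this]
    exact (CC.edge hy).smul (inv_nonneg.2 hs.le)
  have hfin : x' ∈ {z : E d | CC P v (n + ι z)} := by
    rw [hhull] at hx'mem
    exact convexHull_min hsub hconv hx'mem
  rw [hxt]
  exact CC.smul hfin ht0.le

end Pool.Agent.T9h70.NK
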