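import Pool.Agent.T9h98.NK.SpecS

/-!
# Project NK (MP_727bc7_co): the other end of an edge of a two-dimensional face
-/

set_option autoImplicit false

open Set
open scoped RealInnerProductSpace

namespace Pool.Agent.T9h70.NK

open Pool.Agent.T9h98.DC Pool.Agent.T9h44.NK Pool.Agent.T9h98.NK

theorem edge (hF : S_FACES) (hT2 : S_TWO) : S_EDGE := by
  rintro D P hP v w y ⟨hvw, hvy, hwy, T, hT, hdm, hv, hw, hy⟩
  obtain ⟨-, -, -, -, -, -, -, -, hsym, hseg⟩ := hF (D + 1) P hP.1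
  obtain ⟨hVv, hVw, hwv, -⟩ := hsym v w hvw
  -- the other neighbour of `w`
  obtain ⟨a, b, hab, ha, hb, haT, hbT, -, exw, -⟩ := hT2 D P T w hP hVw hT hdm hw
  obtain ⟨z, hwz, hzT, hzv, huniq⟩ : ∃ z, Adj P w z ∧ z ∈ T ∧ z ≠ v ∧
      ∀ u, Adj P w u → u ∈ T → u ≠ z → u = v := by
    rcases exw v hwv hv with h | h
    · refine ⟨b, hb, hbT, fun h' => hab (by rw [← h, ← h']), fun u hu huT huz => ?_⟩
      rcases exw u hu huT with h1 | h1
      · rw [h1, h]
      · exact absurd h1 huz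
    · refine ⟨a, ha, haT, fun h' => hab (by rw [← h, ← h']), fun u hu huT huz => ?_⟩
      rcases exw u hu huT with h1 | h1
      · exact absurd h1 huz
      · rw [h1, h]
  have hVz := (hsym w z hwz).2.1
  -- coordinates of `z` at `v`
  obtain ⟨a', b', hab', ha', hb', haT', hbT', -, exv, cnv, sb, sa⟩ :=
    hT2 D P T v hP hVv hT hdm hv
  have hnot : ∀ c : ℝ, z - v ≠ c • (w - v) := by
    intro c hc
    have hz : z ∈ segment ℝ v w := by
      rcases exv w hvw hw with h | h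
      · subst h; exact sa z hzT c hc
      · subst h; exact sb z hzT c hc
    rcases hseg v w hvw z hVz hz with h | h
    · exact hzv h
    · exact hwz.1 h.symm
  obtain ⟨α, β, hα, hβ, hαβ⟩ : ∃ α β : ℝ, 0 ≤ α ∧ 0 ≤ β ∧
      z - v = α • (w - v) + β • (y - v) := by
    obtain ⟨α, β, hα, hβ, hαβ⟩ := cnv z hzT
    rcases exv w hvw hw with h1 | h1 <;> rcases exv y hvy hy with h2 | h2
    · exact absurd (h1.trans h2.symm) hwy
    · subst h1; subst h2
      exact ⟨α, β, hα, hβ, hαβ⟩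
    · subst h1; subst h2
      exact ⟨β, α, hβ, hα, hαβ.trans (add_comm _ _)⟩
    · exact absurd (h1.trans h2.symm) hwy
  have hβ0 : 0 < β := by
    rcases hβ.lt_or_eq with h | h
    · exact h
    · exfalso
      rw [← h, zero_smul, add_zero] at hαβ
      exact hnot α hαβ
  refine ⟨z, ⟨hwv, hwz, Ne.symm hzv, T, hT, hdm, hw, hv, hzT⟩, ⟨α, β, hα, hβ0, hαβ⟩, ?_⟩
  rintro u ⟨-, hwu, hzu, -⟩ ⟨c, e, hce⟩
  refine huniq u hwu ?_ (Ne.symm hzu)
  -- `u` is in the face
  have hVu := (hsym w u hwu).2.1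
  have huP : u ∈ P := (hVu.2.subset) (mem_singleton u)
  obtain ⟨l, hl⟩ := hT.2 hT.1
  have hTm : ∀ x, x ∈ T ↔ x ∈ P ∧ ∀ y ∈ P, l y ≤ l x := by
    intro x
    rw [hl]
    rfl
  have hv' := (hTm v).1 hv
  have hw' := (hTm w).1 hw
  have hy' := (hTm y).1 hy
  have e1 : l w = l v := le_antisymm (hv'.2 w hw'.1) (hw'.2 v hv'.1)
  have e2 : l y = l v := le_antisymm (hv'.2 y hy'.1) (hy'.2 v hv'.1)
  have e3 : l u = l v := by
    have h1 : l (u - v) = c * l (w - v) + e * l (y - v) := by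
      rw [hce, map_add, map_smul, map_smul, smul_eq_mul, smul_eq_mul]
    rw [map_sub, map_sub, map_sub, e1, e2, sub_self, mul_zero, mul_zero, add_zero] at h1
    linarith
  rw [hTm]
  refine ⟨huP, fun x hx => ?_⟩
  rw [e3]
  exact hv'.2 x hx

end Pool.Agent.T9h70.NK
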