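import Pool.Agent.T9h44.NK.Abs4

/-!
# Project NK (MP_727bc7_co), slope 4, piece X3: double counting
-/

set_option autoImplicit false

open Set
open scoped RealInnerProductSpace

namespace Pool.Agent.T9h70.NK

open Pool.Agent.T9h98.DC Pool.Agent.T9h44.NK

open Classical in
theorem mem_UU {m : ℕ} {q : ℝ} {X : Finset (E m)} {x u : E m} :
    u ∈ UU q X x ↔ u ∈ X ∧ u ≠ x ∧ ⟪x, u⟫ ≤ 2 * q - 1 := by
  unfold UU
  exact Finset.mem_filter

open Classical in
theorem mem_AA {m : ℕ} {q : ℝ} {X : Finset (E m)} {x u : E m} :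
    u ∈ AA q X x ↔ u ∈ X ∧ u ≠ x ∧ ⟪x, u⟫ = q := by
  unfold AA
  exact Finset.mem_filter

theorem UU_symm {m : ℕ} {q : ℝ} {X : Finset (E m)} {x u : E m} (hx : x ∈ X) :
    u ∈ UU q X x → x ∈ UU q X u := by
  rw [mem_UU, mem_UU]
  rintro ⟨-, h2, h3⟩
  exact ⟨hx, h2.symm, by rw [real_inner_comm]; exact h3⟩

open Classical in
theorem x3 (h1 : S_X1) (h2 : S_X2) : S_X3 := by
  intro m q X hq0 hq1 hX hN x hx
  have key : ∀ u ∈ X, 101 ≤ (UU q X u).card ∧ ee q X u < (UU q X u).card ∧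
      (AA q X u).card ≤ 2 * (UU q X u).card + 1 ∧ 3 * (UU q X u).card ≤ X.card + 2 ∧
      X.card ≤ 3 * (UU q X u).card + 2 := by
    intro u hu
    obtain ⟨c1, c2, c3, c4⟩ := h1 m q X hq0 hq1 hX u hu
    have hn : ‖u‖ = 1 := hX.1 u hu
    have hcs : (1 + ((AA q X u).card : ℝ) * q) ^ 2 ≤ ‖∑ w ∈ UU q X u, w‖ ^ 2 := by
      have h := abs_real_inner_le_norm u (∑ w ∈ UU q X u, w)
      rw [c3, hn, one_mul, abs_neg] at h
      rw [← sq_abs (1 + ((AA q X u).card : ℝ) * q)]
      exact pow_le_pow_left₀ (abs_nonneg _) h 2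
    obtain ⟨e1, e2, e3, e4, e5, -⟩ := h2 _ _ (ee q X u) _ q hN hq0 hq1 c1 c2 (hcs.trans c4)
    exact ⟨e1, e2, e3, e4, e5⟩
  obtain ⟨k1, k2, k3, k4, k5⟩ := key x hx
  by_contra hcon
  push Not at hcon
  -- double counting
  have hdd : ∑ z ∈ AA q X x, dd q X x z = ∑ u ∈ UU q X x, (AA q X x ∩ UU q X u).card := by
    have e1 : ∀ z ∈ AA q X x, dd q X x z = ∑ u ∈ UU q X x, if z ∈ UU q X u then 1 else 0 := by
      intro z hz
      have hzX := (mem_AA.1 hz).1
      rw [← Finset.card_filter]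
      unfold dd
      congr 1
      ext u
      rw [Finset.mem_inter, Finset.mem_filter]
      constructor
      · rintro ⟨h3, h4⟩
        exact ⟨h4, UU_symm hzX h3⟩
      · rintro ⟨h3, h4⟩
        exact ⟨UU_symm (mem_UU.1 h3).1 h4, h3⟩
    rw [Finset.sum_congr rfl e1, Finset.sum_comm]
    refine Finset.sum_congr rfl fun u _ => ?_
    rw [← Finset.card_filter]
    congr 1
  have hu : ∀ u ∈ UU q X x, (UU q X x).card ≤
      (AA q X x ∩ UU q X u).card + (UU q X u ∩ UU q X x).card + 2 := by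
    intro u hu
    have huX := (mem_UU.1 hu).1
    obtain ⟨-, -, -, -, j5⟩ := key u huX
    have hsub : UU q X u ⊆ insert x ((AA q X x ∩ UU q X u) ∪ (UU q X u ∩ UU q X x)) := by
      intro w hw
      have hwX := (mem_UU.1 hw).1
      rw [Finset.mem_insert, Finset.mem_union, Finset.mem_inter, Finset.mem_inter]
      by_cases hwx : w = x
      · exact Or.inl hwx
      · right
        rcases hX.2.1 x hx w hwX (Ne.symm hwx) with h | h
        · exact Or.inl ⟨mem_AA.2 ⟨hwX, hwx, h⟩, hw⟩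
        · exact Or.inr ⟨hw, mem_UU.2 ⟨hwX, hwx, h⟩⟩
    have h3 := Finset.card_le_card hsub
    have h4 := Finset.card_insert_le x ((AA q X x ∩ UU q X u) ∪ (UU q X u ∩ UU q X x))
    have h5 := Finset.card_union_le (AA q X x ∩ UU q X u) (UU q X u ∩ UU q X x)
    omega
  have hsum : (UU q X x).card * (UU q X x).card ≤
      (∑ z ∈ AA q X x, dd q X x z) + ee q X x + 2 * (UU q X x).card := by
    rw [hdd]
    have h3 := Finset.sum_le_sum hu
    rw [Finset.sum_const, smul_eq_mul, Finset.sum_add_distrib, Finset.sum_add_distrib,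
      Finset.sum_const, smul_eq_mul] at h3
    unfold ee
    linarith
  have hup : ((∑ z ∈ AA q X x, dd q X x z : ℕ) : ℝ) ≤
      (AA q X x).card * (((UU q X x).card : ℝ) / 2 - 2) := by
    rw [Nat.cast_sum]
    have h3 := Finset.sum_le_sum fun z hz => (hcon z hz).le
    rwa [Finset.sum_const, nsmul_eq_mul] at h3
  have hsum' : ((UU q X x).card : ℝ) * (UU q X x).card ≤
      ((∑ z ∈ AA q X x, dd q X x z : ℕ) : ℝ) + ee q X x + 2 * (UU q X x).card := by
    exact_mod_cast hsum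
  have k1' : (101 : ℝ) ≤ (UU q X x).card := by exact_mod_cast k1
  have k2' : (ee q X x : ℝ) < (UU q X x).card := by exact_mod_cast k2
  have k3' : ((AA q X x).card : ℝ) ≤ 2 * (UU q X x).card + 1 := by exact_mod_cast k3
  have h3 : ((AA q X x).card : ℝ) * (((UU q X x).card : ℝ) / 2 - 2) ≤
      (2 * (UU q X x).card + 1) * (((UU q X x).card : ℝ) / 2 - 2) :=
    mul_le_mul_of_nonneg_right k3' (by linarith)
  nlinarith

end Pool.Agent.T9h70.NK
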